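import Mathlib
import Pool.Agent.Helper29_CF.Defs
import Pool.Agent.Helper29_CF.Stmt

/-!
Module NOEO of squad `cf`: after the removal of a block and its private point an EO component is
no longer EO.
-/

namespace Pool.Agent.Helper29_CF.H48

open Finset

variable {V B : Type} [DecidableEq V] [DecidableEq B]

theorem deg_erase_le (s : B → Finset V) (F : Finset B) (f : B) (x : V) :
    deg s (F.erase f) x ≤ deg s F x := by
  unfold deg
  apply Finset.card_le_card
  intro b hb
  rw [Finset.mem_filter] at hb ⊢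
  exact ⟨Finset.mem_of_mem_erase hb.1, hb.2⟩

theorem deg_erase {s : B → Finset V} {F : Finset B} {f : B} {x : V} (hf : f ∈ F)
    (hx : x ∈ s f) : deg s (F.erase f) x + 1 = deg s F x := by
  unfold deg
  rw [Finset.filter_erase]
  exact Finset.card_erase_add_one (Finset.mem_filter.2 ⟨hf, hx⟩)

theorem noeo (hB : BridgeStmt) : NoEOStmt := by
  intro V B _ _ _ _ s F Q f p hF hEO hf hfQ hp hd W hW hWEO
  have hcomp := hB s F Q f p hF hEO hf hfQ hp hd
  obtain ⟨⟨hWne, hWcl, hWmin⟩, hWdeg, hWtwo, -⟩ := hWEO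
  obtain ⟨⟨hQne, hQcl, hQmin⟩, hdeg, htwo, -⟩ := hEO
  have hWQ : W = Q.erase p := hcomp.2.2 W hW hWne hWcl
  have h2 := htwo f hf hfQ
  have hne : (nodes s F (s f)).Nonempty := by
    rw [← Finset.card_pos, h2]; norm_num
  obtain ⟨a, ha⟩ := hne
  obtain ⟨haf, had⟩ := Finset.mem_filter.1 ha
  have hap : a ≠ p := by rintro rfl; omega
  have haQ : a ∈ Q := hfQ haf
  have haW : a ∈ W := by rw [hWQ]; exact Finset.mem_erase.2 ⟨hap, haQ⟩
  have h3 := deg_erase hf haf
  have h4 : deg s (F.erase f) a = 1 := by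
    rcases hWdeg a haW with h | h | h <;> rcases hdeg a haQ with h' | h' | h' <;> omega
  have h5 : ((F.erase f).filter (fun b => a ∈ s b)).Nonempty := by
    rw [← Finset.card_pos]
    have : ((F.erase f).filter (fun b => a ∈ s b)).card = 1 := h4
    omega
  obtain ⟨e, he⟩ := h5
  obtain ⟨heF, hae⟩ := Finset.mem_filter.1 he
  have heW : s e ⊆ W := by
    rcases hWcl e heF with h | h
    · exact h
    · exact absurd haW ((Finset.disjoint_left.1 h) hae)
  have h6 := hWtwo e heF heW
  have h7 := htwo e (Finset.mem_of_mem_erase heF)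
    (heW.trans (hW.trans (Finset.erase_subset _ _)))
  have hsub : nodes s (F.erase f) (s e) ⊆ (nodes s F (s e)).erase a := by
    intro x hx
    obtain ⟨hx1, hx2⟩ := Finset.mem_filter.1 hx
    refine Finset.mem_erase.2 ⟨?_, Finset.mem_filter.2 ⟨hx1, ?_⟩⟩
    · rintro rfl; omega
    · exact hx2.trans (deg_erase_le s F f x)
  have hae' : a ∈ nodes s F (s e) := Finset.mem_filter.2 ⟨hae, had⟩
  have h8 := Finset.card_le_card hsub
  rw [Finset.card_erase_of_mem hae'] at h8
  omega

end Pool.Agent.Helper29_CF.H48
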